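import Pool.Agent.Y716.C.Defs

/-!
# Project C of helper716 (MP_03ef3d_ag), job C6: a good minor of a real matrix (helper864)
-/

set_option autoImplicit false

open Matrix

namespace Pool.Agent.Z864.C

open Pool.Agent.Y716.C

/-- job C6: a good minor of a real matrix -/
theorem minor (ι : Type*) [Fintype ι] (s : ℕ) : MinorStmt ι s := by
  classical
  refine ⟨1, le_rfl, ?_⟩
  intro γ L hγ h
  -- normalised vectors
  have key : ∀ μ : Fin s → ℝ, μ ≠ 0 → ∃ j₀ : Fin s, μ j₀ ≠ 0 ∧ (∀ j, |μ j| ≤ |μ j₀|) ∧
      ∃ i, γ < |∑ j, μ j / μ j₀ * L j i| := by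
    intro μ hμ
    obtain ⟨j1, hj1⟩ : ∃ j, μ j ≠ 0 := by
      by_contra hcon
      push Not at hcon
      exact hμ (funext hcon)
    haveI : Nonempty (Fin s) := ⟨j1⟩
    obtain ⟨j₀, hj₀⟩ := Finite.exists_max (fun j => |μ j|)
    have h0 : μ j₀ ≠ 0 := by
      intro h0
      have := hj₀ j1
      rw [h0, abs_zero] at this
      exact hj1 (abs_nonpos_iff.1 this)
    refine ⟨j₀, h0, hj₀, h j₀ (fun j => μ j / μ j₀) (div_self h0) fun j => ?_⟩
    rw [abs_div]
    exact div_le_one_of_le₀ (hj₀ j) (abs_nonneg _)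
  -- the columns span the space
  have hspan : ⊤ ≤ Submodule.span ℝ (Set.range fun i : ι => fun j : Fin s => L j i) := by
    by_contra hcon
    obtain ⟨f, hf0, hf⟩ := Submodule.exists_le_ker_of_lt_top _ (lt_top_iff_ne_top.2 fun h =>
      hcon (le_of_eq h.symm))
    have hfe : ∀ v : Fin s → ℝ, f v = ∑ j, f (Pi.single j 1) * v j := by
      intro v
      conv_lhs => rw [← Finset.univ_sum_single v]
      rw [map_sum]
      refine Finset.sum_congr rfl fun j _ => ?_
      have e : (Pi.single j (v j) : Fin s → ℝ) = v j • Pi.single j 1 := by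
        rw [← Pi.single_smul]
        simp
      rw [e, map_smul, smul_eq_mul, mul_comm]
    have hμ : (fun j => f (Pi.single j 1)) ≠ 0 := by
      intro h0
      apply hf0
      ext v
      simp only [LinearMap.coe_comp, Function.comp_apply, LinearMap.zero_apply]
      exact congrFun h0 v
    obtain ⟨j₀, h1, -, i, hi⟩ := key _ hμ
    have h2 : f (fun j => L j i) = 0 := hf (Submodule.subset_span ⟨i, rfl⟩)
    rw [hfe] at h2
    have h3 : ∑ j, f (Pi.single j 1) / f (Pi.single j₀ 1) * L j i = 0 := by
      have e : ∀ j, f (Pi.single j 1) / f (Pi.single j₀ 1) * L j i =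
          (f (Pi.single j₀ 1))⁻¹ * (f (Pi.single j 1) * L j i) := fun j => by
        rw [div_eq_mul_inv]; ring
      simp only [e]
      rw [← Finset.mul_sum, h2, mul_zero]
    rw [h3, abs_zero] at hi
    linarith
  -- a nonzero minor
  obtain ⟨a0, ha0⟩ : ∃ a : Fin s → ι, (Matrix.of fun j j' : Fin s => L j (a j')).det ≠ 0 := by
    have hb := Module.Basis.ofSpan_subset hspan
    obtain ⟨b, hbe⟩ : ∃ b, b = Module.Basis.ofSpan hspan := ⟨_, rfl⟩
    rw [← hbe] at hb
    haveI := Module.Finite.finite_basis b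
    haveI := Fintype.ofFinite
      ↑((linearIndepOn_empty ℝ id).extend
        (Set.empty_subset (Set.range fun i : ι => fun j : Fin s => L j i)))
    have hcard := Module.finrank_eq_card_basis b
    rw [Module.finrank_fin_fun] at hcard
    let e := Fintype.equivFinOfCardEq hcard.symm
    let B := b.reindex e
    have hB : ∀ k, ∃ i : ι, (fun j : Fin s => L j i) = B k := by
      intro k
      obtain ⟨i, hi⟩ := hb ⟨e.symm k, rfl⟩
      exact ⟨i, hi.trans (Module.Basis.reindex_apply b e k).symm⟩
    choose a ha using hB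
    refine ⟨a, ?_⟩
    have hcol : (Matrix.of fun j j' : Fin s => L j (a j')).col = B := by
      funext k
      rw [← ha k]
      rfl
    have hu : IsUnit (Matrix.of fun j j' : Fin s => L j (a j')) := by
      rw [← Matrix.linearIndependent_cols_iff_isUnit, hcol]
      exact B.linearIndependent
    exact ((Matrix.isUnit_iff_isUnit_det _).1 hu).ne_zero
  -- the largest minor
  haveI : Nonempty (Fin s → ι) := ⟨a0⟩
  obtain ⟨a, hamax⟩ := Finite.exists_max (fun a : Fin s → ι =>
    |(Matrix.of fun j j' : Fin s => L j (a j')).det|)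
  obtain ⟨M, hM⟩ : ∃ M, M = Matrix.of fun j j' : Fin s => L j (a j') := ⟨_, rfl⟩
  have hdet : M.det ≠ 0 := by
    intro h0
    have := hamax a0
    rw [← hM, h0, abs_zero] at this
    exact ha0 (abs_nonpos_iff.1 this)
  have hunit : IsUnit M.det := isUnit_iff_ne_zero.2 hdet
  refine ⟨a, M⁻¹, ?_, ?_, ?_⟩
  · intro k l hkl
    by_contra hne
    apply hdet
    refine Matrix.det_zero_of_column_eq hne fun j => ?_
    rw [hM]
    simp only [Matrix.of_apply, hkl]
  · rw [← hM]
    exact Matrix.nonsing_inv_mul M hunit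
  · -- coordinates of the columns
    have hA : ∀ i : ι, ∃ A : Fin s → ℝ, (∀ k, |A k| ≤ 1) ∧ ∀ j, L j i = ∑ k, M j k * A k := by
      intro i
      refine ⟨fun k => M.cramer (fun j => L j i) k / M.det, fun k => ?_, fun j => ?_⟩
      · rw [abs_div]
        refine div_le_one_of_le₀ ?_ (abs_nonneg _)
        rw [Matrix.cramer_apply]
        have := hamax (Function.update a k i)
        rw [← hM] at this
        refine le_trans (le_of_eq ?_) this
        congr 2
        ext j l
        rw [Matrix.updateCol_apply, Matrix.of_apply, Function.update_apply]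
        split_ifs with h1
        · rfl
        · rw [hM, Matrix.of_apply]
      · have h1 := congrFun (Matrix.mulVec_cramer M (fun j => L j i)) j
        rw [Matrix.mulVec, Pi.smul_apply, smul_eq_mul] at h1
        have h2 : ∑ k, M j k * (M.cramer (fun j => L j i) k / M.det) =
            (∑ k, M j k * M.cramer (fun j => L j i) k) / M.det := by
          rw [Finset.sum_div]
          exact Finset.sum_congr rfl fun k _ => by ring
        rw [h2]
        have h3 : ∑ k, M j k * M.cramer (fun j => L j i) k = M.det * L j i := h1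
        rw [h3, mul_div_cancel_left₀ _ hdet]
    intro j0 j'
    have hmul : M⁻¹ * M = 1 := Matrix.nonsing_inv_mul M hunit
    have hμ : M⁻¹ j0 ≠ 0 := by
      intro h0
      have h1 := congrFun (congrFun hmul j0) j0
      rw [Matrix.mul_apply, Matrix.one_apply_eq] at h1
      simp [h0] at h1
    obtain ⟨j₀, h1, h2, i, hi⟩ := key _ hμ
    obtain ⟨A, hA1, hA2⟩ := hA i
    have h3 : ∑ j, M⁻¹ j0 j / M⁻¹ j0 j₀ * L j i = A j0 / M⁻¹ j0 j₀ := by
      have e1 : ∀ j, M⁻¹ j0 j / M⁻¹ j0 j₀ * L j i =
          ∑ k, (M⁻¹ j0 j * M j k) * (A k / M⁻¹ j0 j₀) := by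
        intro j
        rw [hA2 j, Finset.mul_sum]
        exact Finset.sum_congr rfl fun k _ => by ring
      simp only [e1]
      rw [Finset.sum_comm]
      have e2 : ∀ k, ∑ j, M⁻¹ j0 j * M j k * (A k / M⁻¹ j0 j₀) =
          if k = j0 then A k / M⁻¹ j0 j₀ else 0 := by
        intro k
        have h4 := congrFun (congrFun hmul j0) k
        rw [Matrix.mul_apply, Matrix.one_apply] at h4
        rw [← Finset.sum_mul, h4]
        by_cases hk : k = j0
        · rw [if_pos hk.symm, if_pos hk, one_mul]
        · rw [if_neg (fun h => hk h.symm), if_neg hk, zero_mul]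
      simp only [e2]
      rw [Finset.sum_ite_eq' Finset.univ j0, if_pos (Finset.mem_univ _)]
    rw [h3, abs_div] at hi
    have h4 : 0 < |M⁻¹ j0 j₀| := abs_pos.2 h1
    rw [lt_div_iff₀ h4] at hi
    have h5 := hA1 j0
    rw [le_div_iff₀ hγ]
    have h6 := h2 j'
    nlinarith

end Pool.Agent.Z864.C
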